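import Mathlib
import Pool.Agent.Lib.MP_f7f352_co.LAnti

set_option autoImplicit false

namespace Pool.Agent.Results.MP_f7f352_co.AntiConc

open Pool.Agent.Lib.MP_f7f352_co.L

/-- With `L = ⌊log₂ n⌋`, every chromatic equivalence class contains at most a
`2 / 2 ^ (⌊L / 12⌋ * ⌊L / 6⌋)` proportion of the graphs on `n` labelled vertices. -/
theorem result (n : ℕ) (f : ℕ → ℕ) :
    Nat.card {G : SimpleGraph (Fin n) //
      ∀ k : ℕ, Nat.card {c : Fin n → Fin k // ∀ u v, G.Adj u v → c u ≠ c v} = f k} *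
      2 ^ (Nat.log 2 n / 12 * (Nat.log 2 n / 6)) ≤
    2 * Nat.card (SimpleGraph (Fin n)) := by
  classical
  rw [Nat.card_eq_fintype_card, Fintype.card_subtype]
  exact Anti.fibre_bound n _ _ (by omega) _ f fun G hG => (Finset.mem_filter.1 hG).2

end Pool.Agent.Results.MP_f7f352_co.AntiConc
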