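import Mathlib
import Pool.Agent.Lib.MP_f7f352_co.LSparse

set_option autoImplicit false

namespace Pool.Agent.Results.MP_f7f352_co.LocalUnique

open Pool.Agent.Lib.MP_f7f352_co.L

/-- With `r = ⌊log₂ n⌋ / 110`, at most a `2 / 2 ^ (r * ⌊log₂ n / 6⌋)` proportion of the graphs `G`
on `n` labelled vertices have a chromatically equivalent graph `H ≠ G` that differs from `G` only
in pairs inside a set of at most `r` vertices. -/
theorem result (n : ℕ) :
    Nat.card {G : SimpleGraph (Fin n) // ∃ H : SimpleGraph (Fin n), H ≠ G ∧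
      (∃ U : Finset (Fin n), U.card ≤ Nat.log 2 n / 110 ∧
        ∀ u v, ¬ (u ∈ U ∧ v ∈ U) → (G.Adj u v ↔ H.Adj u v)) ∧
      ∀ k : ℕ, Nat.card {c : Fin n → Fin k // ∀ u v, G.Adj u v → c u ≠ c v} =
        Nat.card {c : Fin n → Fin k // ∀ u v, H.Adj u v → c u ≠ c v}} *
      2 ^ (Nat.log 2 n / 110 * (Nat.log 2 n / 6)) ≤
    2 * Nat.card (SimpleGraph (Fin n)) := by
  classical
  rw [Nat.card_eq_fintype_card, Fintype.card_subtype]
  exact Sparse.local_bound n _ _ (by omega) rfl _ fun G hG => (Finset.mem_filter.1 hG).2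

end Pool.Agent.Results.MP_f7f352_co.LocalUnique
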