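import Mathlib
import Pool.Agent.Lib.MP_f7f352_co.QP.Main

set_option autoImplicit false

namespace Pool.Agent.Results.MP_f7f352_co.ManyPolys

open Pool.Agent.F7QP

/-- Graphs on `n` vertices have at least `2 ^ (⌊(n - 4) / 12⌋ ^ 2)` distinct chromatic
polynomials. -/
theorem result (n : ℕ) :
    2 ^ (((n - 4) / 12) ^ 2) ≤
      Set.ncard (Set.range fun G : SimpleGraph (Fin n) => fun k : ℕ =>
        Nat.card {c : Fin n → Fin k // ∀ u v, G.Adj u v → c u ≠ c v}) := by
  classical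
  set m := (n - 4) / 12 with hm
  rcases Nat.eq_zero_or_pos m with h0 | hpos
  · rw [h0]
    exact (Set.ncard_pos (Set.finite_range _)).2 ⟨_, ⊥, rfl⟩
  set l := (9 * m + 1) / 2 with hl
  set r := n - (3 * m + 3 + 2 * l) with hr
  obtain ⟨x, hx1, hx2⟩ := exists_code (ι := Fin l) m (by rw [Fintype.card_fin]; omega)
    (by rw [Fintype.card_fin]; exact length_ok m hpos)
  have hcard : Fintype.card (((Fin m ⊕ Fin 3) ⊕ Fin m) ⊕ ((Fin l ⊕ Fin m) ⊕ (Fin l ⊕ Fin r)))
      = n := by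
    simp only [Fintype.card_sum, Fintype.card_fin]
    omega
  let e := Fintype.equivFinOfCardEq hcard
  have key : ∀ (G : SimpleGraph
      (((Fin m ⊕ Fin 3) ⊕ Fin m) ⊕ ((Fin l ⊕ Fin m) ⊕ (Fin l ⊕ Fin r)))) (k : ℕ),
      Nat.card {c : Fin n → Fin k // ∀ u v, (G.comap e.symm).Adj u v → c u ≠ c v} =
      Nat.card {c : (((Fin m ⊕ Fin 3) ⊕ Fin m) ⊕ ((Fin l ⊕ Fin m) ⊕ (Fin l ⊕ Fin r))) → Fin k //
        ∀ u v, G.Adj u v → c u ≠ c v} := by
    intro G k
    refine Nat.card_congr (Equiv.subtypeEquiv (Equiv.arrowCongr e.symm (Equiv.refl _)) ?_)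
    intro c
    simp only [SimpleGraph.comap_adj, Equiv.arrowCongr_apply, Equiv.symm_symm, Equiv.coe_refl,
      Function.comp, id]
    constructor
    · intro h u v huv
      exact h (e u) (e v) (by simpa using huv)
    · intro h u v huv
      simpa using h (e.symm u) (e.symm v) huv
  have h1 : 2 ^ (m ^ 2) = (↑(E0 m).powerset : Set (Finset ((Fin m ⊕ Fin 3) × Fin m))).ncard := by
    rw [Set.ncard_coe_finset, Finset.card_powerset, card_E0]
  rw [h1]
  refine Set.ncard_le_ncard_of_injOn (fun R => fun k : ℕ =>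
    Nat.card {c : Fin n → Fin k // ∀ u v,
      ((graph R (fun w => (NL m r x w).disjSum (NB m r x w))).comap e.symm).Adj u v → c u ≠ c v})
    (fun X _ => ⟨_, rfl⟩) ?_ (Set.finite_range _)
  intro X hX Y hY h
  refine family_inj m r x hx1 hx2 X Y (Finset.mem_powerset.1 hX) (Finset.mem_powerset.1 hY)
    fun k => ?_
  rw [← key, ← key]
  exact congrFun h k

end Pool.Agent.Results.MP_f7f352_co.ManyPolys
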