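import Mathlib
import Pool.Agent.Lib.MP_f7f352_co.SX.Main

set_option autoImplicit false

namespace Pool.Agent.Results.MP_f7f352_co.ManyUniqueSuper

open Pool.Agent.Lib.MP_f7f352_co.SX

/-- For all large `n` there are at least `2 ^ (n ^ (8 / 7))` pairwise non-isomorphic
chromatically unique graphs on `n` vertices. -/
theorem result : ∃ n₀ : ℕ, ∀ n : ℕ, n₀ ≤ n →
    ∃ S : Finset (SimpleGraph (Fin n)), (2 : ℝ) ^ ((n : ℝ) ^ ((8 : ℝ) / 7)) ≤ (S.card : ℝ) ∧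
      (∀ G ∈ S, ∀ G' ∈ S, Nonempty (G ≃g G') → G = G') ∧
      ∀ G ∈ S, ∀ (m : ℕ) (H : SimpleGraph (Fin m)),
        (∀ k : ℕ, Nat.card {c : Fin n → Fin k // ∀ u v, G.Adj u v → c u ≠ c v} =
          Nat.card {c : Fin m → Fin k // ∀ u v, H.Adj u v → c u ≠ c v}) →
        Nonempty (G ≃g H) := by
  obtain ⟨n₀, h0⟩ := exists_par
  refine ⟨n₀, fun n hn => ?_⟩
  obtain ⟨h, l, E, hp, h1, h2⟩ := h0 n hn
  obtain ⟨S, h3, h4, h5⟩ := many hp h1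
  refine ⟨S, ?_, h4, h5⟩
  calc (2 : ℝ) ^ ((n : ℝ) ^ ((8 : ℝ) / 7)) ≤ (2 : ℝ) ^ ((2 * h * E : ℕ) : ℝ) :=
        Real.rpow_le_rpow_of_exponent_le (by norm_num) h2
    _ = ((2 ^ (2 * h * E) : ℕ) : ℝ) := by rw [Real.rpow_natCast]; push_cast; rfl
    _ ≤ S.card := by exact_mod_cast h3

end Pool.Agent.Results.MP_f7f352_co.ManyUniqueSuper
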